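import Pool.Agent.Lib.TWR2.Vand

/-!
# TANK W, row R2: attained jets of an exact arc

* `tail_unif`: the tail given by Proposition H is uniform;
* `DenseP`: the arc has as many strict points as one likes;
* `att`: all the jets of the limit `u` are attained.
-/

set_option autoImplicit false

open Finset

namespace Pool.Agent.TWR2

open Pool.Agent.H15JM (RVal)
open Pool.Agent.D2 (Ctx0)
open Pool.Agent.TWM
open Pool.Agent.TWLM (HSd Oi Arc)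
open Pool.Agent.TWII (Wn Nr)

universe u

variable {k Ω : Type u} [Field k] [Field Ω] [Algebra k Ω] {v : RVal Ω}
  {F : IntermediateField k Ω} {σ : ℝ} {Φ : ℕ → Ω → Ω}

/-- The tail is uniform. -/
theorem tail_unif (hΦ : HSd F Φ) (hn : Wn v F σ Φ) {u : Ω} {ρ : ℝ} (hu : Lim v F ρ u) {l : ℕ}
    (hL : ∀ ε : ℝ, 0 < ε → Nr v F ρ u fun θ => v.Ge (ρ - l * σ - ε) (Φ l θ))
    {δ : ℝ} (hδ : 0 < δ) {θ : Ω} (hθ : θ ∈ F) (hθu : v.Ge (ρ - δ) (u - θ)) :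
    v.Ge (ρ - δ - l * σ) (Φ l θ) := by
  obtain ⟨θ', hθ', h1, h2⟩ := ((hL δ hδ).and (Nr.near hδ)).exists hu
  have e1 : Φ l θ = Φ l (θ - θ') + Φ l θ' := by
    rw [hΦ.sub l hθ hθ']
    ring
  rw [e1]
  refine (hn l _ (sub_mem hθ hθ') _ ?_).add (h1.mono (by linarith))
  have e2 : θ - θ' = (u - θ') - (u - θ) := by ring
  rw [e2]
  exact h2.sub hθu

/-- The arc `Φ` of `F`, scaled by `c`, has as many strict points as one likes. -/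
def DenseP (v : RVal Ω) (F : IntermediateField k Ω) (Φ : ℕ → Ω → Ω) (c : Ω) : Prop :=
  ∀ N : ℕ, ∃ (ζ : Fin N → k) (η : ℝ), Function.Injective ζ ∧ (∀ j, ζ j ≠ 0) ∧ 0 < η ∧
    ∀ j, StrP v F Φ c (ζ j) η

/-- **The jets of `u` are attained.** -/
theorem att (h0 : Ctx0 k v) (hΦ : HSd F Φ) (hn : Wn v F σ Φ) (ho : Oi v F σ Φ) {c : Ω}
    (hc : c ∈ F) (hc0 : c ≠ 0) (hcv : v c = σ) (hd : DenseP v F Φ c) {u : Ω} {ρ : ℝ}
    (hu : Lim v F ρ u) {L : ℕ}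
    (hL : ∀ l, L < l → ∀ ε : ℝ, 0 < ε → Nr v F ρ u fun θ => v.Ge (ρ - l * σ - ε) (Φ l θ)) :
    ∃ (U : ℕ → Ω) (η : ℝ), 0 < η ∧ (∀ l, U l ∈ F) ∧ U 0 = 0 ∧ (∀ l, L < l → U l = 0) ∧
      ∀ l : ℕ, l ≠ 0 → ∀ δ : ℝ, 0 < δ → δ ≤ η → ∀ θ ∈ F, v.Ge (ρ - δ) (u - θ) →
        v.Ge (ρ - δ - l * σ) (Φ l θ - U l) := by
  classical
  obtain ⟨ζ, η, hinj, hne, hη, hs⟩ := hd L
  obtain ⟨U, hU, h1⟩ := vand h0 hΦ ho hc hc0 hcv hu
    (fun l hl δ hδ θ hθ h2 => tail_unif hΦ hn hu (hL l hl) hδ hθ h2) ζ hinj hne hη hs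
  refine ⟨fun l => if 1 ≤ l ∧ l ≤ L then U l else 0, η / 2, half_pos hη, ?_, ?_, ?_, ?_⟩
  · intro l
    dsimp only
    split_ifs
    exacts [hU l, zero_mem _]
  · exact if_neg (by omega)
  · intro l hl
    exact if_neg (by omega)
  · intro l hl δ hδ hδη θ hθ h2
    dsimp only
    split_ifs with h3
    · exact h1 l h3.1 h3.2 δ hδ hδη θ hθ h2
    · rw [sub_zero]
      exact tail_unif hΦ hn hu (hL l (by omega)) hδ hθ h2

end Pool.Agent.TWR2
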