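import Pool.Agent.Lib.TWN1.Trunc
import Pool.Agent.Lib.TWII.PropHV

/-!
# TANK W, row R2: extension of an arc of norm `≤ l σ`

* `SetW`: `Φ` is an overconvergent arc of `C` of norm `≤ l σ`, not necessarily strict, `w` is of
  transcendental type over `C`, and the series `Z` is near `Φ c` for `c` near `w`;
* `SetW.exists_ext`: then `Φ` extends to the closure of `C(w)`, with `Ψ n w = Z n`, the norm is
  `≤ l σ`; if `Z` is a polynomial, `Ψ` is overconvergent;
* `SetW.pst`: if `Φ` is pointwise strict, so is `Ψ`.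
-/

set_option autoImplicit false

open Polynomial Finset

namespace Pool.Agent.TWR2

open Pool.Agent.H15JM (RVal)
open Pool.Agent.TWM
open Pool.Agent.TWN1
open Pool.Agent.TWLM (HSd Oi Arc eq_zero_of_ge exists_ge eval_mem_cadj)
open Pool.Agent.TWII (Wn)

universe u

variable {k Ω : Type u} [Field k] [Field Ω] [Algebra k Ω] {v : RVal Ω}
  {C : IntermediateField k Ω} {Φ : ℕ → Ω → Ω} {w : Ω} {Z : PowerSeries Ω} {η ρ σ : ℝ}

/-- The data. -/
structure SetW (v : RVal Ω) (C : IntermediateField k Ω) (Φ : ℕ → Ω → Ω) (w : Ω)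
    (Z : PowerSeries Ω) (η ρ σ : ℝ) : Prop where
  hsd : HSd C Φ
  wn : Wn v C σ Φ
  tl : TL v C w ρ
  z0 : PowerSeries.coeff 0 Z = 0
  zmem : ∀ n, PowerSeries.coeff n Z ∈ C
  pos : 0 < η
  near : ∀ n : ℕ, n ≠ 0 → ∀ δ : ℝ, 0 < δ → δ ≤ η → ∀ c ∈ C, v.Ge (ρ - δ) (w - c) →
    v.Ge (ρ - δ - n * σ) (PowerSeries.coeff n Z - Φ n c)

namespace SetW

variable (h : SetW v C Φ w Z η ρ σ)
include h

theorem coeff_ge {δ : ℝ} (hδ : 0 < δ) (hδη : δ ≤ η) {c : Ω} (hc : c ∈ C)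
    (hwc : v.Ge (ρ - δ) (w - c)) (m : ℕ) :
    v.Ge (ρ - δ - m * σ) (PowerSeries.coeff m (PowerSeries.C w + Z - ser Φ c)) := by
  by_cases hm : m = 0
  · subst hm
    have e : PowerSeries.coeff 0 (PowerSeries.C w + Z - ser Φ c) = w - c := by
      rw [map_sub, map_add, PowerSeries.coeff_C, if_pos rfl, coeff_ser, h.z0, add_zero,
        h.hsd.c0 c hc]
    rw [e]
    exact hwc.mono (by simp)
  · have e : PowerSeries.coeff m (PowerSeries.C w + Z - ser Φ c) =
        PowerSeries.coeff m Z - Φ m c := by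
      rw [map_sub, map_add, PowerSeries.coeff_C, if_neg hm, coeff_ser, zero_add]
    rw [e]
    exact h.near m hm δ hδ hδη c hc hwc

/-- The norm on the polynomials. -/
theorem ph_ge [IsAlgClosed Ω] (n : ℕ) {f : Polynomial Ω} (hf : f ∈ PI C) {b : ℝ}
    (hb : v.Ge b (f.eval w)) : v.Ge (b - n * σ) (Ph Φ w Z n f) := by
  classical
  refine ge_of_eps fun ε hε => ?_
  set L := f.natDegree with hL
  obtain ⟨δ, hδ, hdeep⟩ := TL.deep h.tl ((range (L + 1)).image fun l => hasseDeriv l f) (by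
    intro g hg
    obtain ⟨l, -, rfl⟩ := mem_image.1 hg
    exact hasse_mem_PI hf l)
  -- the distance
  set δ' : ℝ := min δ (min η (ε / (L + 1))) with hδ'
  have hδ'0 : 0 < δ' := lt_min hδ (lt_min h.pos (by positivity))
  have hδ'1 : δ' ≤ δ := min_le_left _ _
  have hδ'2 : δ' ≤ η := (min_le_right _ _).trans (min_le_left _ _)
  have hδ'3 : ∀ l : ℕ, l ≤ L → (l : ℝ) * δ' ≤ ε := by
    intro l hl
    have h1 : δ' ≤ ε / (L + 1) := (min_le_right _ _).trans (min_le_right _ _)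
    have h2 : (l : ℝ) ≤ L + 1 := by
      have : (l : ℝ) ≤ L := by exact_mod_cast hl
      linarith
    calc (l : ℝ) * δ' ≤ (L + 1) * δ' := mul_le_mul_of_nonneg_right h2 hδ'0.le
      _ ≤ (L + 1) * (ε / (L + 1)) := mul_le_mul_of_nonneg_left h1 (by positivity)
      _ = ε := by field_simp
  obtain ⟨c, hc, hwc⟩ := h.tl.lim δ' hδ'0
  have hfl : ∀ l : ℕ, l ≤ L → v.Ge (b - l * ρ) ((hasseDeriv l f).eval c) := by
    intro l hl
    have h1 := (hdeep c (hwc.mono (by linarith)) (hasseDeriv l f)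
      (mem_image.2 ⟨l, mem_range.2 (by omega), rfl⟩)).1 (b - l * ρ)
    exact h1.1 (TWLM.poly_norm h.tl hf l hb)
  rw [Ph, coeff_EV_point h.hsd hf hL.ge hc]
  refine RVal.Ge.sum _ _ fun l hl => RVal.Ge.sum _ _ fun i hi => ?_
  have hlL : l ≤ L := by
    have := mem_range.1 hl
    omega
  have hi' : i.1 + i.2 = n := by simpa using hi
  have hin : (n : ℝ) = i.1 + i.2 := by rw [← hi']; push_cast; ring
  have h1 := h.wn i.1 _ (eval_mem (hasse_mem_PI hf l) hc) _ (hfl l hlL)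
  have h2 := pow_ge (h.coeff_ge hδ'0 hδ'2 hc hwc) l i.2
  refine (h1.mul h2).mono ?_
  have h3 := hδ'3 l hlL
  rw [hin]
  nlinarith

/-- Pointwise strictness on the polynomials. -/
theorem ph_gt [IsAlgClosed Ω] (hst : ∀ l : ℕ, l ≠ 0 → ∀ x ∈ C, ∀ b : ℝ, v.Ge b x →
    Gt v (b - l * σ) (Φ l x)) {n : ℕ} (hn : n ≠ 0) {f : Polynomial Ω} (hf : f ∈ PI C) {b : ℝ}
    (hb : v.Ge b (f.eval w)) : Gt v (b - n * σ) (Ph Φ w Z n f) := by
  classical
  set L := f.natDegree with hL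
  obtain ⟨δ, hδ, hdeep⟩ := TL.deep h.tl ((range (L + 1)).image fun l => hasseDeriv l f) (by
    intro g hg
    obtain ⟨l, -, rfl⟩ := mem_image.1 hg
    exact hasse_mem_PI hf l)
  -- the margin of the jets
  obtain ⟨μ, hμ, hmu⟩ : ∃ μ : ℝ, 0 < μ ∧ ∀ l ≤ L, l ≠ 0 →
      v.Ge (b - l * ρ + μ) ((hasseDeriv l f).eval w) := by
    have key : ∀ N : ℕ, ∃ μ : ℝ, 0 < μ ∧ ∀ l ≤ N, l ≠ 0 →
        v.Ge (b - l * ρ + μ) ((hasseDeriv l f).eval w) := by
      intro N
      induction N with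
      | zero => exact ⟨1, one_pos, fun l hl hl0 => absurd (Nat.le_zero.1 hl) hl0⟩
      | succ N ih =>
        obtain ⟨μ, hμ, h1⟩ := ih
        obtain ⟨μ', hμ', h2⟩ := TWLM.exists_ge_of_gt
          (TWLM.poly_str h.tl hf (Nat.succ_ne_zero N) hb)
        refine ⟨min μ μ', lt_min hμ hμ', fun l hl hl0 => ?_⟩
        rcases Nat.lt_succ_iff_lt_or_eq.1 (Nat.lt_succ_of_le hl) with h3 | rfl
        · exact (h1 l (by omega) hl0).mono (by linarith [min_le_left μ μ'])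
        · exact h2.mono (by linarith [min_le_right μ μ'])
    exact key L
  set δ' : ℝ := min δ (min η (μ / (2 * (L + 1)))) with hδ'
  have hδ'0 : 0 < δ' := lt_min hδ (lt_min h.pos (by positivity))
  have hδ'1 : δ' ≤ δ := min_le_left _ _
  have hδ'2 : δ' ≤ η := (min_le_right _ _).trans (min_le_left _ _)
  have hδ'3 : ∀ l : ℕ, l ≤ L → (l : ℝ) * δ' ≤ μ / 2 := by
    intro l hl
    have h1 : δ' ≤ μ / (2 * (L + 1)) := (min_le_right _ _).trans (min_le_right _ _)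
    have h2 : (l : ℝ) ≤ L + 1 := by
      have : (l : ℝ) ≤ L := by exact_mod_cast hl
      linarith
    calc (l : ℝ) * δ' ≤ (L + 1) * δ' := mul_le_mul_of_nonneg_right h2 hδ'0.le
      _ ≤ (L + 1) * (μ / (2 * (L + 1))) := mul_le_mul_of_nonneg_left h1 (by positivity)
      _ = μ / 2 := by field_simp
  obtain ⟨c, hc, hwc⟩ := h.tl.lim δ' hδ'0
  rw [Ph, coeff_EV_point h.hsd hf hL.ge hc]
  refine Gt.sum _ _ fun l hl => Gt.sum _ _ fun i hi => ?_
  have hlL : l ≤ L := by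
    have := mem_range.1 hl
    omega
  have hi' : i.1 + i.2 = n := by simpa using hi
  have hin : (n : ℝ) = i.1 + i.2 := by rw [← hi']; push_cast; ring
  have hev : ∀ b' : ℝ, v.Ge b' ((hasseDeriv l f).eval w) → v.Ge b' ((hasseDeriv l f).eval c) :=
    fun b' => ((hdeep c (hwc.mono (by linarith)) (hasseDeriv l f)
      (mem_image.2 ⟨l, mem_range.2 (by omega), rfl⟩)).1 b').1
  by_cases hl0 : l = 0
  · subst hl0
    rw [pow_zero, PowerSeries.coeff_one]
    split_ifs with h2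
    · rw [mul_one]
      have h3 : i.1 = n := by omega
      rw [h3]
      refine hst n hn _ (eval_mem (hasse_mem_PI hf 0) hc) b (hev b ?_)
      rwa [hasseDeriv_zero']
    · rw [mul_zero]
      exact Gt.zero
  · have h1 := h.wn i.1 _ (eval_mem (hasse_mem_PI hf l) hc) _ (hev _ (hmu l hlL hl0))
    have h2 := pow_ge (h.coeff_ge hδ'0 hδ'2 hc hwc) l i.2
    refine Gt.of_ge (h1.mul h2) ?_
    have h3 := hδ'3 l hlL
    rw [hin]
    nlinarith

theorem ph_zero {f : Polynomial Ω} (hf : f ∈ PI C) : Ph Φ w Z 0 f = f.eval w := by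
  rw [Ph, EV, Polynomial.sum, map_sum, eval_eq_sum, Polynomial.sum]
  refine sum_congr rfl fun i _ => ?_
  have h1 : PowerSeries.coeff 0 ((PowerSeries.C w + Z) ^ i) = w ^ i := by
    rw [PowerSeries.coeff_zero_eq_constantCoeff_apply, map_pow, map_add,
      PowerSeries.constantCoeff_C, ← PowerSeries.coeff_zero_eq_constantCoeff_apply, h.z0, add_zero]
  rw [PowerSeries.coeff_mul, Finset.Nat.antidiagonal_zero, sum_singleton, coeff_ser,
    h.hsd.c0 _ (hf i), h1]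

/-- **The extension.** -/
theorem exists_ext [IsAlgClosed Ω] (hΩ : CompleteV v) :
    ∃ Ψ : ℕ → Ω → Ω, HSd (cadj v C w) Ψ ∧ Wn v (cadj v C w) σ Ψ ∧
      (∀ n : ℕ, ∀ f ∈ PI C, Ψ n (f.eval w) = Ph Φ w Z n f) ∧
      (∀ n : ℕ, ∀ x ∈ C, Ψ n x = Φ n x) ∧
      (∀ n : ℕ, Ψ n w = if n = 0 then w else PowerSeries.coeff n Z) ∧
      (∀ n : ℕ, ∀ x ∈ cadj v C w, ∀ b : ℝ, ∀ f ∈ PI C, v.Ge b (x - f.eval w) →
        v.Ge (b - n * σ) (Ψ n x - Ph Φ w Z n f)) := by
  classical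
  -- existence
  have h1 : ∀ (j : ℕ) (x : Ω), x ∈ cadj v C w → ∃ y : Ω, ∀ (b : ℝ), ∀ f ∈ PI C,
      v.Ge b (x - f.eval w) → v.Ge (b - j * σ) (y - Ph Φ w Z j f) := by
    intro j x hx
    choose f hf hxf using fun n : ℕ => h.tl.dense hx (n : ℝ)
    have hdif : ∀ (g g' : Polynomial Ω) (b : ℝ), g ∈ PI C → g' ∈ PI C → v.Ge b (x - g.eval w) →
        v.Ge b (x - g'.eval w) →
        v.Ge (b - j * σ) (Ph Φ w Z j g - Ph Φ w Z j g') := by
      intro g g' b hg hg' h2 h3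
      rw [← TWN1.ph_sub h.hsd hg hg']
      refine h.ph_ge j (sub_mem hg hg') ?_
      rw [eval_sub]
      have e : g.eval w - g'.eval w = (x - g'.eval w) - (x - g.eval w) := by ring
      rw [e]
      exact h3.sub h2
    obtain ⟨y, hy⟩ := hΩ (fun n => Ph Φ w Z j (f n)) fun c => by
      obtain ⟨N, hN⟩ := exists_nat_ge (c + j * σ)
      refine ⟨N, fun m n hm hn => ?_⟩
      refine (hdif (f m) (f n) N (hf m) (hf n) ((hxf m).mono (by exact_mod_cast hm))
        ((hxf n).mono (by exact_mod_cast hn))).mono (by linarith)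
    refine ⟨y, fun b g hg hb => ?_⟩
    obtain ⟨N, hN⟩ := hy (b - j * σ)
    obtain ⟨N', hN'⟩ := exists_nat_ge b
    have e : y - Ph Φ w Z j g = (y - Ph Φ w Z j (f (max N N'))) +
        (Ph Φ w Z j (f (max N N')) - Ph Φ w Z j g) := by ring
    rw [e]
    refine (hN _ (le_max_left _ _)).add (hdif _ _ b (hf _) hg ((hxf _).mono (hN'.trans ?_)) hb)
    exact_mod_cast le_max_right N N'
  choose! D hD using h1
  -- uniqueness
  have huniq : ∀ (j : ℕ) (x : Ω), x ∈ cadj v C w → ∀ y : Ω,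
      (∀ b : ℝ, ∃ f ∈ PI C, v.Ge b (x - f.eval w) ∧ v.Ge b (y - Ph Φ w Z j f)) →
      D j x = y := by
    intro j x hx y h2
    refine sub_eq_zero.1 (eq_zero_of_ge (v := v) fun b => ?_)
    obtain ⟨f, hf, h3, h4⟩ := h2 (max b (b + j * σ))
    have h5 := hD j x hx _ f hf h3
    have e : D j x - y = (D j x - Ph Φ w Z j f) - (y - Ph Φ w Z j f) := by
      ring
    rw [e]
    refine (h5.mono ?_).sub (h4.mono (le_max_left _ _))
    linarith [le_max_right b (b + j * σ)]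
  have hpoly : ∀ j : ℕ, ∀ f ∈ PI C, D j (f.eval w) = Ph Φ w Z j f := by
    intro j f hf
    refine huniq j _ (eval_mem_cadj hf) _ fun b => ⟨f, hf, ?_, ?_⟩
    · rw [sub_self]
      exact RVal.Ge.zero
    · rw [sub_self]
      exact RVal.Ge.zero
  -- simultaneous approximation
  have happ : ∀ j : ℕ, ∀ x ∈ cadj v C w, ∀ b : ℝ, ∃ f ∈ PI C, v.Ge b (x - f.eval w) ∧
      v.Ge b (D j x - Ph Φ w Z j f) := by
    intro j x hx b
    obtain ⟨f, hf, h2⟩ := h.tl.dense hx (max b (b + j * σ))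
    refine ⟨f, hf, h2.mono (le_max_left _ _), (hD j x hx _ f hf h2).mono ?_⟩
    linarith [le_max_right b (b + j * σ)]
  have hmem : ∀ j : ℕ, ∀ x ∈ cadj v C w, D j x ∈ cadj v C w := by
    intro j x hx
    refine cld_cadj v C w fun b => ?_
    obtain ⟨f, hf, h2, h3⟩ := happ j x hx b
    exact ⟨_, Set0.ph_mem' h.hsd h.zmem hf j, h3⟩
  have hadd : ∀ j : ℕ, ∀ x ∈ cadj v C w, ∀ y ∈ cadj v C w, D j (x + y) = D j x + D j y := by
    intro j x hx y hy
    refine huniq j _ (add_mem hx hy) _ fun b => ?_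
    obtain ⟨f, hf, h2, h3⟩ := happ j x hx b
    obtain ⟨g, hg, h4, h5⟩ := happ j y hy b
    refine ⟨f + g, add_mem hf hg, ?_, ?_⟩
    · rw [eval_add, add_sub_add_comm]
      exact h2.add h4
    · rw [TWN1.ph_add h.hsd hf hg, add_sub_add_comm]
      exact h3.add h5
  have hnorm : ∀ j : ℕ, ∀ x ∈ cadj v C w, ∀ b : ℝ, v.Ge b x → v.Ge (b - j * σ) (D j x) := by
    intro j x hx b hb
    have h2 := hD j x hx b 0 (zero_mem _) (by rwa [eval_zero, sub_zero])
    have h3 : Ph Φ w Z j 0 = 0 := by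
      rw [Ph, EV_zero, map_zero]
    rwa [h3, sub_zero] at h2
  -- products
  have hmul : ∀ j : ℕ, ∀ x ∈ cadj v C w, ∀ y ∈ cadj v C w,
      D j (x * y) = ∑ i ∈ Finset.HasAntidiagonal.antidiagonal j, D i.1 x * D i.2 y := by
    intro j x hx y hy
    -- bounds
    obtain ⟨R, hR0, hR⟩ : ∃ R : ℝ, 0 ≤ R ∧ (∀ i : ℕ, i ≤ j → |i * σ| ≤ R ∧ v.Ge (-R) (D i x) ∧
        v.Ge (-R) (D i y)) ∧ v.Ge (-R) x ∧ v.Ge (-R) y := by
      obtain ⟨c, hc⟩ := exists_ge v x
      obtain ⟨c', hc'⟩ := exists_ge v y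
      refine ⟨|c| + |c'| + j * |σ|, by positivity, fun i hi => ⟨?_, ?_, ?_⟩, hc.mono ?_,
        hc'.mono ?_⟩
      · rw [abs_mul, Nat.abs_cast]
        have h2 : (i : ℝ) ≤ j := by exact_mod_cast hi
        have h3 : (i : ℝ) * |σ| ≤ j * |σ| := mul_le_mul_of_nonneg_right h2 (abs_nonneg σ)
        linarith [abs_nonneg c, abs_nonneg c']
      · refine (hnorm i x hx c hc).mono ?_
        have h2 : (i : ℝ) ≤ j := by exact_mod_cast hi
        have h3 : (i : ℝ) * |σ| ≤ j * |σ| := mul_le_mul_of_nonneg_right h2 (abs_nonneg σ)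
        have h4 : (i : ℝ) * σ ≤ i * |σ| := mul_le_mul_of_nonneg_left (le_abs_self σ) (by positivity)
        linarith [neg_abs_le c, abs_nonneg c']
      · refine (hnorm i y hy c' hc').mono ?_
        have h2 : (i : ℝ) ≤ j := by exact_mod_cast hi
        have h3 : (i : ℝ) * |σ| ≤ j * |σ| := mul_le_mul_of_nonneg_right h2 (abs_nonneg σ)
        have h4 : (i : ℝ) * σ ≤ i * |σ| := mul_le_mul_of_nonneg_left (le_abs_self σ) (by positivity)
        linarith [neg_abs_le c', abs_nonneg c]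
      · have h3 : (0 : ℝ) ≤ j * |σ| := by positivity
        linarith [neg_abs_le c, abs_nonneg c']
      · have h3 : (0 : ℝ) ≤ j * |σ| := by positivity
        linarith [neg_abs_le c', abs_nonneg c]
    obtain ⟨hR1, hRx, hRy⟩ := hR
    refine huniq j _ (mul_mem hx hy) _ fun b => ?_
    set B : ℝ := |b| + 2 * R with hB
    have hB0 : 0 ≤ B := by positivity
    obtain ⟨f, hf, h2⟩ := h.tl.dense hx (B + R)
    obtain ⟨g, hg, h4⟩ := h.tl.dense hy (B + R)
    have h3 : ∀ i : ℕ, i ≤ j → v.Ge B (D i x - Ph Φ w Z i f) := fun i hi =>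
      (hD i x hx _ f hf h2).mono (by linarith [(le_abs_self ((i : ℝ) * σ)).trans (hR1 i hi).1])
    have h5 : ∀ i : ℕ, i ≤ j → v.Ge B (D i y - Ph Φ w Z i g) := fun i hi =>
      (hD i y hy _ g hg h4).mono (by linarith [(le_abs_self ((i : ℝ) * σ)).trans (hR1 i hi).1])
    have hmulb : ∀ a a' c c' : Ω, v.Ge (-R) a → v.Ge (-R) c → v.Ge B (a - a') → v.Ge B (c - c') →
        v.Ge b (a * c - a' * c') := by
      intro a a' c c' h6 h7 h8 h9
      have e : a * c - a' * c' = (a - a') * c + a * (c - c') - (a - a') * (c - c') := by ring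
      rw [e]
      refine ((((h8.mul h7)).mono ?_).add ((h6.mul h9).mono ?_)).sub ((h8.mul h9).mono ?_)
      · rw [hB]; linarith [le_abs_self b]
      · rw [hB]; linarith [le_abs_self b]
      · linarith [le_abs_self b]
    refine ⟨f * g, mul_mem hf hg, ?_, ?_⟩
    · rw [eval_mul]
      exact hmulb _ _ _ _ hRx hRy (h2.mono (by linarith)) (h4.mono (by linarith))
    · rw [TWN1.ph_mul h.hsd hf hg, ← sum_sub_distrib]
      refine RVal.Ge.sum _ _ fun i hi => ?_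
      have hi' : i.1 + i.2 = j := by simpa using hi
      exact hmulb _ _ _ _ (hR1 i.1 (by omega)).2.1 (hR1 i.2 (by omega)).2.2 (h3 i.1 (by omega))
        (h5 i.2 (by omega))
  have hC : ∀ n : ℕ, ∀ x ∈ C, D n x = Φ n x := by
    intro n x hx
    have h2 := hpoly n (Polynomial.C x) (C_mem_PI hx)
    rwa [eval_C, TWN1.ph_C h.hsd hx] at h2
  refine ⟨D, ?_, fun j x hx b hb => hnorm j x hx b hb, hpoly, hC, ?_, hD⟩
  · refine
      { mem := hmem
        c0 := ?_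
        add := hadd
        mul := hmul
        con := ?_ }
    · intro x hx
      refine huniq 0 x hx x fun b => ?_
      obtain ⟨f, hf, h2⟩ := h.tl.dense hx b
      exact ⟨f, hf, h2, by rwa [h.ph_zero hf]⟩
    · intro l hl c
      rw [hC l _ (C.algebraMap_mem c)]
      exact h.hsd.con l hl c
  · intro n
    have h2 := hpoly n X (X_mem_PI (A := C))
    rw [eval_X] at h2
    rw [h2, Ph, EV_X h.hsd, map_add, PowerSeries.coeff_C]
    split_ifs with hn
    · rw [hn, h.z0, add_zero]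
    · rw [zero_add]

/-- **The extension is overconvergent** if `Z` is a polynomial. -/
theorem ext_oi [IsAlgClosed Ω] (hoi : Oi v C σ Φ) {n₀ : ℕ}
    (hZ : ∀ n, n₀ ≤ n → PowerSeries.coeff n Z = 0) {Ψ : ℕ → Ω → Ω}
    (hΨ : ∀ n : ℕ, ∀ x ∈ cadj v C w, ∀ b : ℝ, ∀ f ∈ PI C, v.Ge b (x - f.eval w) →
        v.Ge (b - n * σ) (Ψ n x - Ph Φ w Z n f)) : Oi v (cadj v C w) σ Ψ := by
  intro x hx B
  obtain ⟨f, hf, h6⟩ := h.tl.dense hx B
  obtain ⟨L, hL⟩ := ph_oi (w := w) hoi (n₀ := n₀) hZ hf B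
  refine ⟨L, fun l hl => ?_⟩
  have h7 := hΨ l x hx B f hf h6
  have e : Ψ l x = (Ψ l x - Ph Φ w Z l f) + Ph Φ w Z l f := by ring
  rw [e]
  exact h7.add (hL l hl)

/-- **The extension is pointwise strict** if `Φ` is. -/
theorem pst [IsAlgClosed Ω] (hst : ∀ l : ℕ, l ≠ 0 → ∀ x ∈ C, ∀ b : ℝ, v.Ge b x →
    Gt v (b - l * σ) (Φ l x)) {Ψ : ℕ → Ω → Ω}
    (hΨ : ∀ n : ℕ, ∀ x ∈ cadj v C w, ∀ b : ℝ, ∀ f ∈ PI C, v.Ge b (x - f.eval w) →
        v.Ge (b - n * σ) (Ψ n x - Ph Φ w Z n f)) {l : ℕ} (hl : l ≠ 0) {x : Ω}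
    (hx : x ∈ cadj v C w) {b : ℝ} (hb : v.Ge b x) : Gt v (b - l * σ) (Ψ l x) := by
  obtain ⟨f, hf, h2⟩ := h.tl.dense hx (b + 1)
  have h3 := hΨ l x hx _ f hf h2
  have h4 : v.Ge b (f.eval w) := by
    have e : f.eval w = x - (x - f.eval w) := by ring
    rw [e]
    exact hb.sub (h2.mono (by linarith))
  have h5 := h.ph_gt hst hl hf h4
  have e : Ψ l x = (Ψ l x - Ph Φ w Z l f) + Ph Φ w Z l f := by ring
  rw [e]
  exact (Gt.of_ge h3 (by linarith)).add h5

end SetW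

end Pool.Agent.TWR2
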