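import Pool.Agent.Lib.TWII.PropHV
import Mathlib.LinearAlgebra.Vandermonde

/-!
# TANK W, row R2: exact arcs with strict points

* `StrP v F Φ c ζ η`: the automorphism with parameter `ζ c`, `ζ ∈ k`, of the arc `Φ` moves the
  elements of `F` strictly, with margin `η`;
* `vand`: if only the jets of order `≤ L` of the limit `u` of `F` are visible and the arc has `L`
  strict points, then all the jets of `u` are attained in `F`.
-/

set_option autoImplicit false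

open Finset

namespace Pool.Agent.TWR2

open Pool.Agent.H15JM (RVal)
open Pool.Agent.D2 (Ctx0)
open Pool.Agent.TWM
open Pool.Agent.TWLM (HSd Oi Arc)
open Pool.Agent.TWII (Wn Nr)

universe u

variable {k Ω : Type u} [Field k] [Field Ω] [Algebra k Ω] {v : RVal Ω}
  {F : IntermediateField k Ω} {σ : ℝ} {Φ : ℕ → Ω → Ω}

/-- The partial sums of the displacement of `f` with parameter `t`. -/
def dsp (Φ : ℕ → Ω → Ω) (t : Ω) (N : ℕ) (f : Ω) : Ω :=
  ∑ l ∈ range N, t ^ (l + 1) * Φ (l + 1) f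

/-- `ζ` is a strict point of the arc `Φ` of `F`, scaled by `c`, with margin `η`. -/
def StrP (v : RVal Ω) (F : IntermediateField k Ω) (Φ : ℕ → Ω → Ω) (c : Ω) (ζ : k) (η : ℝ) : Prop :=
  ∀ f ∈ F, ∀ b : ℝ, v.Ge b f → ∃ N₀ : ℕ, ∀ N, N₀ ≤ N →
    v.Ge (b + η) (dsp Φ (algebraMap k Ω ζ * c) N f)

theorem dsp_sub (hΦ : HSd F Φ) (t : Ω) (N : ℕ) {f g : Ω} (hf : f ∈ F) (hg : g ∈ F) :
    dsp Φ t N (f - g) = dsp Φ t N f - dsp Φ t N g := by
  rw [dsp, dsp, dsp, ← sum_sub_distrib]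
  exact sum_congr rfl fun l _ => by rw [hΦ.sub _ hf hg]; ring

/-- Inverse of the matrix `ζ_j ^ (l + 1)`. -/
theorem exists_inv {L : ℕ} (ζ : Fin L → k) (hinj : Function.Injective ζ) (hne : ∀ j, ζ j ≠ 0) :
    ∃ lam : Fin L → Fin L → k, ∀ i l : Fin L,
      ∑ j, lam i j * ζ j ^ ((l : ℕ) + 1) = if i = l then 1 else 0 := by
  classical
  set M : Matrix (Fin L) (Fin L) k := Matrix.of fun j l => ζ j ^ ((l : ℕ) + 1) with hM
  have hdet : IsUnit M.det := by
    have h1 : M = Matrix.of fun j l => ζ j * Matrix.vandermonde ζ j l := by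
      ext j l
      simp [hM, Matrix.vandermonde_apply, pow_succ, mul_comm]
    rw [h1, Matrix.det_mul_column]
    refine isUnit_iff_ne_zero.2 (mul_ne_zero (prod_ne_zero_iff.2 fun j _ => hne j) ?_)
    exact Matrix.det_vandermonde_ne_zero_iff.2 hinj
  refine ⟨fun i j => M⁻¹ i j, fun i l => ?_⟩
  have h2 : (M⁻¹ * M) i l = (1 : Matrix (Fin L) (Fin L) k) i l := by
    rw [Matrix.nonsing_inv_mul _ hdet]
  rw [Matrix.mul_apply, Matrix.one_apply] at h2
  rw [← h2]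
  rfl

/-- **All the jets are attained**, by the matrix of Vandermonde. -/
theorem vand (h0 : Ctx0 k v) (hΦ : HSd F Φ) (ho : Oi v F σ Φ) {c : Ω}
    (hc : c ∈ F) (hc0 : c ≠ 0) (hcv : v c = σ) {u : Ω} {ρ : ℝ} (hu : Lim v F ρ u) {L : ℕ}
    (hL : ∀ l, L < l → ∀ δ : ℝ, 0 < δ → ∀ θ ∈ F, v.Ge (ρ - δ) (u - θ) →
      v.Ge (ρ - δ - l * σ) (Φ l θ))
    (ζ : Fin L → k) (hinj : Function.Injective ζ) (hne : ∀ j, ζ j ≠ 0) {η : ℝ} (hη : 0 < η)
    (hs : ∀ j, StrP v F Φ c (ζ j) η) :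
    ∃ U : ℕ → Ω, (∀ l, U l ∈ F) ∧ ∀ l, 1 ≤ l → l ≤ L → ∀ δ : ℝ, 0 < δ → δ ≤ η / 2 →
      ∀ θ ∈ F, v.Ge (ρ - δ) (u - θ) → v.Ge (ρ - δ - l * σ) (Φ l θ - U l) := by
  classical
  obtain ⟨lam, hlam⟩ := exists_inv ζ hinj hne
  -- the centre
  obtain ⟨θ₀, hθ₀, h1⟩ := hu (η / 2) (half_pos hη)
  -- partial sums for the centre
  obtain ⟨N₁, hN₁⟩ := ho θ₀ hθ₀ ρ
  have hcl : ∀ (j : Fin L) (l : ℕ), v.Ge (l * σ) ((algebraMap k Ω (ζ j) * c) ^ l) := by
    intro j l
    have h2 : v.Ge (0 + σ) (algebraMap k Ω (ζ j) * c) :=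
      (h0.ge (ζ j)).mul (fun _ => hcv.ge)
    rw [zero_add] at h2
    exact Pool.Agent.TWII.ge_pow' h2 l
  set d : Fin L → Ω := fun j => dsp Φ (algebraMap k Ω (ζ j) * c) N₁ θ₀ with hd
  have hdF : ∀ j, d j ∈ F := by
    intro j
    exact sum_mem fun l _ => mul_mem (pow_mem (mul_mem (F.algebraMap_mem _) hc) _)
      (hΦ.mem _ _ hθ₀)
  have hd' : ∀ j, ∀ N, N₁ ≤ N → v.Ge ρ (dsp Φ (algebraMap k Ω (ζ j) * c) N θ₀ - d j) := by
    intro j N hN
    have e1 : dsp Φ (algebraMap k Ω (ζ j) * c) N θ₀ - d j =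
        ∑ l ∈ Ico N₁ N, (algebraMap k Ω (ζ j) * c) ^ (l + 1) * Φ (l + 1) θ₀ := by
      rw [hd]
      dsimp only [dsp]
      rw [sub_eq_iff_eq_add, add_comm, Finset.range_eq_Ico, Finset.range_eq_Ico,
        Finset.sum_Ico_consecutive _ (Nat.zero_le _) hN]
    rw [e1]
    refine RVal.Ge.sum _ _ fun l hl => ?_
    have hl' := (mem_Ico.1 hl).1
    have h2 := (hcl j (l + 1)).mul (hN₁ (l + 1) (by omega))
    exact h2.mono (by push_cast; ring_nf; linarith)
  refine ⟨fun l => if h : 1 ≤ l ∧ l ≤ L then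
    c⁻¹ ^ l * ∑ j, algebraMap k Ω (lam ⟨l - 1, by omega⟩ j) * d j else 0, ?_, ?_⟩
  · intro l
    dsimp only
    split_ifs with h
    · exact mul_mem (pow_mem (inv_mem hc) _)
        (sum_mem fun j _ => mul_mem (F.algebraMap_mem _) (hdF j))
    · exact zero_mem _
  intro l hl1 hl2 δ hδ hδη θ hθ hθu
  dsimp only
  rw [dif_pos ⟨hl1, hl2⟩]
  -- the displacements of `θ`
  have hE : ∀ j, v.Ge (ρ - δ) (∑ m ∈ range L, (algebraMap k Ω (ζ j) * c) ^ (m + 1) *
      Φ (m + 1) θ - d j) := by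
    intro j
    have h2 : v.Ge (ρ - η / 2) (θ - θ₀) := by
      have e1 : θ - θ₀ = (u - θ₀) - (u - θ) := by ring
      rw [e1]
      refine RVal.Ge.sub h1 (hθu.mono (by linarith))
    obtain ⟨N₀, hN₀⟩ := hs j (θ - θ₀) (sub_mem hθ hθ₀) _ h2
    set N := max (max N₀ N₁) L with hN
    have h3 := hN₀ N (le_trans (le_max_left _ _) (le_max_left _ _))
    rw [dsp_sub hΦ _ _ hθ hθ₀] at h3
    have h4 := hd' j N (le_trans (le_max_right _ _) (le_max_left _ _))
    have h5 : v.Ge (ρ - δ) (dsp Φ (algebraMap k Ω (ζ j) * c) N θ - ∑ m ∈ range L,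
        (algebraMap k Ω (ζ j) * c) ^ (m + 1) * Φ (m + 1) θ) := by
      have e1 : dsp Φ (algebraMap k Ω (ζ j) * c) N θ - ∑ m ∈ range L,
          (algebraMap k Ω (ζ j) * c) ^ (m + 1) * Φ (m + 1) θ =
          ∑ m ∈ Ico L N, (algebraMap k Ω (ζ j) * c) ^ (m + 1) * Φ (m + 1) θ := by
        dsimp only [dsp]
        rw [sub_eq_iff_eq_add, add_comm, Finset.range_eq_Ico, Finset.range_eq_Ico,
          Finset.sum_Ico_consecutive _ (Nat.zero_le _) (le_max_right _ _)]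
      rw [e1]
      refine RVal.Ge.sum _ _ fun m hm => ?_
      have hm' := (mem_Ico.1 hm).1
      have h6 := (hcl j (m + 1)).mul (hL (m + 1) (by omega) δ hδ θ hθ hθu)
      exact h6.mono (by push_cast; linarith)
    have e2 : ∑ m ∈ range L, (algebraMap k Ω (ζ j) * c) ^ (m + 1) * Φ (m + 1) θ - d j =
        (dsp Φ (algebraMap k Ω (ζ j) * c) N θ - dsp Φ (algebraMap k Ω (ζ j) * c) N θ₀) +
        (dsp Φ (algebraMap k Ω (ζ j) * c) N θ₀ - d j) -
        (dsp Φ (algebraMap k Ω (ζ j) * c) N θ - ∑ m ∈ range L,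
        (algebraMap k Ω (ζ j) * c) ^ (m + 1) * Φ (m + 1) θ) := by ring
    rw [e2]
    exact ((h3.mono (by linarith)).add (h4.mono (by linarith))).sub h5
  -- inversion
  have e3 : c ^ l * Φ l θ = ∑ j, algebraMap k Ω (lam ⟨l - 1, by omega⟩ j) *
      ∑ m ∈ range L, (algebraMap k Ω (ζ j) * c) ^ (m + 1) * Φ (m + 1) θ := by
    simp_rw [mul_sum]
    rw [sum_comm]
    have h7 : ∀ m ∈ range L, ∑ j, algebraMap k Ω (lam ⟨l - 1, by omega⟩ j) *
        ((algebraMap k Ω (ζ j) * c) ^ (m + 1) * Φ (m + 1) θ) =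
        if l = m + 1 then c ^ l * Φ l θ else 0 := by
      intro m hm
      have hm' := mem_range.1 hm
      have h8 := hlam ⟨l - 1, by omega⟩ ⟨m, hm'⟩
      have h9 : ∑ j, algebraMap k Ω (lam ⟨l - 1, by omega⟩ j) *
          ((algebraMap k Ω (ζ j) * c) ^ (m + 1) * Φ (m + 1) θ) =
          algebraMap k Ω (∑ j, lam ⟨l - 1, by omega⟩ j * ζ j ^ (m + 1)) *
            (c ^ (m + 1) * Φ (m + 1) θ) := by
        rw [map_sum, sum_mul]
        refine sum_congr rfl fun j _ => ?_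
        rw [map_mul, map_pow, mul_pow]
        ring
      rw [h9]
      dsimp only at h8
      rw [h8]
      by_cases h10 : l = m + 1
      · rw [if_pos h10, if_pos (by ext; simp; omega), map_one, one_mul, h10]
      · rw [if_neg h10, if_neg (by intro h; apply h10; have := Fin.mk.inj_iff.1 h; omega),
          map_zero, zero_mul]
    rw [sum_congr rfl h7, Finset.sum_ite, sum_const_zero, add_zero, sum_const]
    have h8 : (range L).filter (fun m => l = m + 1) = {l - 1} := by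
      ext m
      simp only [mem_filter, mem_range, mem_singleton]
      omega
    rw [h8, card_singleton, one_smul]
  have e4 : Φ l θ - c⁻¹ ^ l * ∑ j, algebraMap k Ω (lam ⟨l - 1, by omega⟩ j) * d j =
      c⁻¹ ^ l * ∑ j, algebraMap k Ω (lam ⟨l - 1, by omega⟩ j) *
        (∑ m ∈ range L, (algebraMap k Ω (ζ j) * c) ^ (m + 1) * Φ (m + 1) θ - d j) := by
    simp_rw [mul_sub]
    rw [sum_sub_distrib, mul_sub, ← e3, ← mul_assoc, ← mul_pow, inv_mul_cancel₀ hc0, one_pow,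
      one_mul]
  rw [e4]
  have h11 : v.Ge (-(l * σ)) (c⁻¹ ^ l) := by
    intro _
    rw [v.map_pow (inv_ne_zero hc0), v.map_inv hc0, hcv]
    linarith
  refine (h11.mul (RVal.Ge.sum _ _ fun j _ => (h0.ge _).mul (hE j))).mono ?_
  linarith

end Pool.Agent.TWR2
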